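import Pool.Agent.Helper112.PairSieve
import Pool.Agent.H378R2.QG.Defs

set_option autoImplicit false

/-! # QP: a mixed upper bound sieve (project QG of helper378); proof by helper144 -/

namespace Pool.Agent.H378R2.QG.QP

open Finset ArithmeticFunction BoundingSieve
open Pool.Agent.Helper112.E456.SieveAux

/-- the density function `#{e ∣ n, e ∣ K}/n` -/
noncomputable def nuK (K : ℕ) : ArithmeticFunction ℝ :=
  ⟨fun n => ((Nat.divisors (Nat.gcd n K)).card : ℝ) / n, by simp⟩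

theorem nuK_apply (K n : ℕ) : nuK K n = ((Nat.divisors (Nat.gcd n K)).card : ℝ) / n := rfl

theorem nuK_mult (K : ℕ) : (nuK K).IsMultiplicative := by
  constructor
  · simp [nuK_apply]
  · intro m n hmn
    have h1 : Nat.gcd (m * n) K = Nat.gcd m K * Nat.gcd n K := Nat.Coprime.mul_gcd hmn K
    rw [nuK_apply, nuK_apply, nuK_apply, h1, Nat.Coprime.card_divisors_mul]
    · push_cast
      rw [mul_div_mul_comm]
    · exact Nat.Coprime.coprime_dvd_left (Nat.gcd_dvd_left _ _)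
        (Nat.Coprime.coprime_dvd_right (Nat.gcd_dvd_left _ _) hmn)

theorem nuK_prime_le {K p : ℕ} (hp : p.Prime) : nuK K p ≤ 2 / p := by
  rw [nuK_apply]
  have h1 : (Nat.divisors (Nat.gcd p K)).card ≤ 2 := by
    have h2 : Nat.divisors (Nat.gcd p K) ⊆ Nat.divisors p :=
      Nat.divisors_subset_of_dvd hp.ne_zero (Nat.gcd_dvd_left _ _)
    have h3 := Finset.card_le_card h2
    rw [hp.divisors, Finset.card_pair hp.one_lt.ne] at h3
    exact h3
  have h1' : ((Nat.divisors (Nat.gcd p K)).card : ℝ) ≤ 2 := by exact_mod_cast h1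
  have : (0 : ℝ) < p := by exact_mod_cast hp.pos
  gcongr

theorem nuK_prime_pos {K p : ℕ} (hp : p.Prime) : 0 < nuK K p := by
  rw [nuK_apply]
  have h0 : Nat.gcd p K ≠ 0 := by
    intro h
    exact hp.ne_zero (Nat.eq_zero_of_gcd_eq_zero_left h)
  have h1 : 0 < (Nat.divisors (Nat.gcd p K)).card :=
    Finset.card_pos.2 ⟨1, Nat.one_mem_divisors.2 h0⟩
  have : (0 : ℝ) < p := by exact_mod_cast hp.pos
  have h1' : (0 : ℝ) < ((Nat.divisors (Nat.gcd p K)).card : ℝ) := by exact_mod_cast h1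
  positivity

/-- the part of `m q + s` composed of the primes in `K` -/
def gg (m : ℕ) (s : ℤ) (K q : ℕ) : ℕ := Nat.gcd K ((m : ℤ) * q + s).natAbs

/-- the sifted function -/
def fq (m : ℕ) (s : ℤ) (K q : ℕ) : ℕ := 2 ^ (K * q) * (q * gg m s K q)

theorem gg_pos {m : ℕ} {s : ℤ} {K q : ℕ} (hK : 0 < K) : 0 < gg m s K q :=
  Nat.gcd_pos_of_pos_left _ hK

theorem gg_le {m : ℕ} {s : ℤ} {K q : ℕ} (hK : 0 < K) : gg m s K q ≤ K :=
  Nat.le_of_dvd hK (Nat.gcd_dvd_left _ _)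

theorem fq_lt {m : ℕ} {s : ℤ} {K a b : ℕ} (hK : 0 < K) (ha : 0 < a) (hab : a < b) :
    fq m s K a < fq m s K b := by
  unfold fq
  have h1 : gg m s K a < 2 ^ K := lt_of_le_of_lt (gg_le hK) Nat.lt_two_pow_self
  have h2 : 1 ≤ gg m s K b := gg_pos hK
  calc 2 ^ (K * a) * (a * gg m s K a) < 2 ^ (K * a) * (a * 2 ^ K) := by
        apply Nat.mul_lt_mul_of_pos_left _ (by positivity)
        exact Nat.mul_lt_mul_of_pos_left h1 ha
    _ = 2 ^ (K * (a + 1)) * a := by rw [Nat.mul_add, mul_one, pow_add]; ring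
    _ ≤ 2 ^ (K * b) * (b * gg m s K b) := by
        apply Nat.mul_le_mul
        · exact Nat.pow_le_pow_right (by norm_num) (Nat.mul_le_mul_left _ hab)
        · calc a ≤ b * 1 := by omega
            _ ≤ b * gg m s K b := Nat.mul_le_mul_left _ h2

theorem fq_inj {m : ℕ} {s : ℤ} {K : ℕ} (N : ℕ) (hK : 0 < K) :
    Set.InjOn (fq m s K) (Icc 1 N : Finset ℕ) := by
  intro a ha b hb h
  rw [Finset.mem_coe, mem_Icc] at ha hb
  rcases lt_trichotomy a b with h1 | h1 | h1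
  · exact absurd h (fq_lt hK (by omega) h1).ne
  · exact h1
  · exact absurd h (fq_lt hK (by omega) h1).ne'

theorem PR_pos (R M : ℕ) : 0 < PR R M := Nat.pos_of_ne_zero (PR_squarefree R M).ne_zero

noncomputable def sq (m : ℕ) (s : ℤ) (K N R M : ℕ) (hM : 2 ∣ M) : BoundingSieve where
  support := (Icc 1 N).image (fq m s K)
  prodPrimes := PR R M
  prodPrimes_squarefree := PR_squarefree R M
  weights := fun _ => 1
  weights_nonneg := fun _ => zero_le_one
  totalMass := N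
  nu := nuK K
  nu_mult := nuK_mult K
  nu_pos_of_prime := by
    intro p hp _
    exact nuK_prime_pos hp
  nu_lt_one_of_prime := by
    intro p hp hd
    refine lt_of_le_of_lt (nuK_prime_le hp) ?_
    have h3 := three_le_of_dvd hM hp hd
    have h3' : (3 : ℝ) ≤ p := by exact_mod_cast h3
    rw [div_lt_one (by linarith)]
    linarith

theorem natAbs_dvd_iff {e m q : ℕ} {s : ℤ} :
    e ∣ ((m : ℤ) * q + s).natAbs ↔ (e : ℤ) ∣ (m : ℤ) * q + s := by
  rw [← Int.natCast_dvd]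

/-- a class mod `e` -/
theorem exists_class_int {m e : ℕ} {s : ℤ} (he : 0 < e) (hm : Nat.Coprime m e) :
    ∃ c : ℕ, ∀ n : ℕ, (e : ℤ) ∣ (m : ℤ) * n + s ↔ n ≡ c [MOD e] := by
  have : NeZero e := ⟨he.ne'⟩
  -- replace `s` by a natural number congruent to it
  set b : ℕ := (s % (e : ℤ)).toNat with hb
  have hb' : (b : ℤ) = s % (e : ℤ) :=
    Int.toNat_of_nonneg (Int.emod_nonneg _ (by exact_mod_cast he.ne'))
  obtain ⟨c, hc⟩ := exists_class_one (a := m) (b := b) he hm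
  refine ⟨c, fun n => ?_⟩
  rw [← hc n, ← Int.natCast_dvd_natCast]
  push_cast
  rw [hb']
  have h1 : (m : ℤ) * n + s = ((m : ℤ) * n + s % (e : ℤ)) + e * (s / e) := by
    have := Int.emod_add_mul_ediv s (e : ℤ)
    linarith
  rw [h1]
  exact (Int.dvd_add_left (dvd_mul_right _ _))

theorem exists_class_two' {m e₁ e₂ : ℕ} {s : ℤ} (he₁ : 0 < e₁) (he₂ : 0 < e₂)
    (h2 : Nat.Coprime m e₂) (h12 : Nat.Coprime e₁ e₂) :
    ∃ c : ℕ, ∀ n : ℕ, (e₁ ∣ n ∧ (e₂ : ℤ) ∣ (m : ℤ) * n + s) ↔ n ≡ c [MOD (e₁ * e₂)] := by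
  obtain ⟨c2, hc2⟩ := exists_class_int (s := s) he₂ h2
  obtain ⟨c, hca, hcb⟩ := Nat.chineseRemainder h12 0 c2
  refine ⟨c, fun n => ?_⟩
  rw [hc2, ← Nat.modEq_and_modEq_iff_modEq_mul h12, ← Nat.modEq_zero_iff_dvd]
  constructor
  · rintro ⟨h3, h4⟩
    exact ⟨h3.trans hca.symm, h4.trans hcb.symm⟩
  · rintro ⟨h3, h4⟩
    exact ⟨h3.trans hca, h4.trans hcb⟩

theorem dvd_fq_iff {m : ℕ} {s : ℤ} {K q d : ℕ} (hd : Nat.Coprime d 2) :
    d ∣ fq m s K q ↔ d ∣ q * gg m s K q := by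
  unfold fq
  constructor
  · intro h
    exact (Nat.Coprime.pow_right (K * q) hd).dvd_of_dvd_mul_left h
  · intro h
    exact Dvd.dvd.mul_left h _

theorem no_common' {m : ℕ} {s : ℤ} {K q p : ℕ} (hs : s = 1 ∨ s = -1) (hp : p.Prime)
    (h1 : p ∣ q) : ¬ p ∣ gg m s K q := by
  intro h2
  have h3 : p ∣ ((m : ℤ) * q + s).natAbs := h2.trans (Nat.gcd_dvd_right _ _)
  rw [natAbs_dvd_iff] at h3
  have h4 : (p : ℤ) ∣ (m : ℤ) * q := by
    have : (p : ℤ) ∣ (q : ℤ) := by exact_mod_cast h1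
    exact this.mul_left _
  have h5 : (p : ℤ) ∣ s := (Int.dvd_add_right h4).1 h3
  have h6 : (p : ℤ) ∣ 1 := by
    rcases hs with rfl | rfl
    · exact h5
    · exact (dvd_neg.1 h5)
  have h7 : p ∣ 1 := by exact_mod_cast h6
  exact hp.one_lt.ne' (Nat.dvd_one.1 h7)

theorem count_fq {m : ℕ} {s : ℤ} {K d : ℕ} (N : ℕ) (hs : s = 1 ∨ s = -1) (hK : 0 < K)
    (hd : Squarefree d) (hd2 : Nat.Coprime d 2) (hdm : Nat.Coprime d m) :
    |(((Icc 1 N).filter (fun q => d ∣ fq m s K q)).card : ℝ) - nuK K d * N|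
      ≤ (Nat.divisors d).card := by
  classical
  have hd0 : 0 < d := Nat.pos_of_ne_zero hd.ne_zero
  have hg0 : Nat.gcd d K ≠ 0 := (Nat.gcd_pos_of_pos_left _ hd0).ne'
  have h1 : (((Icc 1 N).filter (fun q => d ∣ fq m s K q)).card : ℝ)
      = ∑ e ∈ Nat.divisorsAntidiagonal d,
        (((Icc 1 N).filter (fun q => e.1 ∣ q ∧ e.2 ∣ gg m s K q)).card : ℝ) := by
    have h2 : ∀ (P : ℕ → Prop) [DecidablePred P], (((Icc 1 N).filter P).card : ℝ)
        = ∑ n ∈ Icc 1 N, if P n then (1 : ℝ) else 0 := by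
      intro P _
      rw [Finset.card_filter]; push_cast; rfl
    rw [h2]
    simp_rw [h2]
    rw [Finset.sum_comm]
    apply Finset.sum_congr rfl
    intro q _
    rw [factor_count hd]
    · simp only [dvd_fq_iff hd2]
    · intro p hp hpd h3
      exact no_common' hs hp h3
  have h2 : nuK K d * N = ∑ e ∈ Nat.divisorsAntidiagonal d,
      if e.2 ∣ K then (N : ℝ) / d else 0 := by
    rw [← Finset.sum_filter, Finset.sum_const, nsmul_eq_mul, nuK_apply]
    have h3 : ((Nat.divisorsAntidiagonal d).filter (fun e => e.2 ∣ K)).card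
        = (Nat.divisors (Nat.gcd d K)).card := by
      apply Finset.card_nbij' (fun e => e.2) (fun e => (d / e, e))
      · rintro ⟨e1, e2⟩ he
        simp only [coe_filter, Nat.mem_divisorsAntidiagonal, Set.mem_ofPred_eq] at he
        rw [Finset.mem_coe, Nat.mem_divisors]
        exact ⟨Nat.dvd_gcd (he.1.1 ▸ dvd_mul_left _ _) he.2, hg0⟩
      · intro e he
        rw [Finset.mem_coe, Nat.mem_divisors] at he
        have h4 : e ∣ d := he.1.trans (Nat.gcd_dvd_left _ _)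
        simp only [coe_filter, Nat.mem_divisorsAntidiagonal, Set.mem_ofPred_eq]
        exact ⟨⟨Nat.div_mul_cancel h4, hd.ne_zero⟩, he.1.trans (Nat.gcd_dvd_right _ _)⟩
      · rintro ⟨e1, e2⟩ he
        simp only [coe_filter, Nat.mem_divisorsAntidiagonal, Set.mem_ofPred_eq] at he
        have h5 : 0 < e2 := Nat.pos_of_ne_zero (by rintro rfl; apply hd.ne_zero; rw [← he.1.1]; simp)
        simp only [Prod.mk.injEq, and_true]
        rw [← he.1.1, Nat.mul_div_cancel _ h5]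
      · intro e _
        rfl
    rw [h3]; ring
  rw [h1, h2, ← Finset.sum_sub_distrib]
  refine (Finset.abs_sum_le_sum_abs _ _).trans ?_
  have h3 : ∀ e ∈ Nat.divisorsAntidiagonal d,
      |(((Icc 1 N).filter (fun q => e.1 ∣ q ∧ e.2 ∣ gg m s K q)).card : ℝ)
        - (if e.2 ∣ K then (N : ℝ) / d else 0)| ≤ 1 := by
    rintro ⟨e1, e2⟩ he
    rw [Nat.mem_divisorsAntidiagonal] at he
    simp only at he ⊢
    have he1 : e1 ∣ d := he.1 ▸ dvd_mul_right _ _
    have he2 : e2 ∣ d := he.1 ▸ dvd_mul_left _ _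
    have h12 : Nat.Coprime e1 e2 := by
      apply Nat.coprime_of_squarefree_mul
      rw [he.1]; exact hd
    by_cases hK2 : e2 ∣ K
    · rw [if_pos hK2]
      obtain ⟨c, hc⟩ := exists_class_two' (m := m) (s := s) (Nat.pos_of_dvd_of_pos he1 hd0)
        (Nat.pos_of_dvd_of_pos he2 hd0) (Nat.Coprime.coprime_dvd_left he2 hdm).symm h12
      have h4 : (Icc 1 N).filter (fun q => e1 ∣ q ∧ e2 ∣ gg m s K q)
          = (Icc 1 N).filter (fun n => n ≡ c [MOD d]) := by
        apply Finset.filter_congr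
        intro n _
        have h5 : e2 ∣ gg m s K n ↔ (e2 : ℤ) ∣ (m : ℤ) * n + s := by
          unfold gg
          rw [Nat.dvd_gcd_iff, natAbs_dvd_iff]
          exact ⟨fun h => h.2, fun h => ⟨hK2, h⟩⟩
        rw [h5, hc n, he.1]
      rw [h4]
      exact count_class N d c hd0
    · rw [if_neg hK2]
      have h4 : (Icc 1 N).filter (fun q => e1 ∣ q ∧ e2 ∣ gg m s K q) = ∅ := by
        apply Finset.filter_false_of_mem
        intro q _ h5
        exact hK2 (h5.2.trans (Nat.gcd_dvd_left _ _))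
      rw [h4]; simp
  refine (Finset.sum_le_sum h3).trans ?_
  rw [Finset.sum_const, nsmul_eq_mul, mul_one]
  have : (Nat.divisorsAntidiagonal d).card = (Nat.divisors d).card := by
    rw [← Nat.map_div_right_divisors, Finset.card_map]
  rw [this]

theorem rem_le' {m : ℕ} {s : ℤ} {K N R M d : ℕ} (hs : s = 1 ∨ s = -1) (hK : 0 < K) (hM : 2 ∣ M)
    (hmM : m ∣ M) (hd : d ∣ PR R M) :
    |(sq m s K N R M hM).rem d| ≤ d := by
  have hsq : Squarefree d := (PR_squarefree R M).squarefree_of_dvd hd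
  have hdM := coprime_of_dvd_PR hd
  have hcop : Nat.Coprime d m := Nat.Coprime.coprime_dvd_right hmM hdM
  have hcop2 : Nat.Coprime d 2 := Nat.Coprime.coprime_dvd_right hM hdM
  have h1 := count_fq N hs hK hsq hcop2 hcop
  have h2 : (sq m s K N R M hM).multSum d
      = (((Icc 1 N).filter (fun q => d ∣ fq m s K q)).card : ℝ) := by
    unfold multSum
    show ∑ n ∈ (Icc 1 N).image (fq m s K), (if d ∣ n then (1 : ℝ) else 0) = _
    rw [Finset.sum_image (fq_inj N hK), Finset.card_filter]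
    push_cast; rfl
  have h3 : (sq m s K N R M hM).rem d
      = (((Icc 1 N).filter (fun q => d ∣ fq m s K q)).card : ℝ) - nuK K d * N := by
    unfold BoundingSieve.rem
    rw [h2]; rfl
  rw [h3]
  refine h1.trans ?_
  exact_mod_cast Nat.card_divisors_le_self d

theorem g_div_nu_le' {m : ℕ} {s : ℤ} {K N R M d : ℕ} (hM : 2 ∣ M) (hd : d ∣ PR R M) :
    (sq m s K N R M hM).selbergTerms d / (sq m s K N R M hM).nu d ≤ d := by
  have hsq : Squarefree d := (PR_squarefree R M).squarefree_of_dvd hd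
  have hnu : (sq m s K N R M hM).nu d ≠ 0 :=
    nu_ne_zero (s := sq m s K N R M hM) hd
  rw [selbergTerms_apply, mul_comm, mul_div_assoc, div_self hnu, mul_one]
  have h1 : (d : ℝ) = ∏ p ∈ d.primeFactors, (p : ℝ) := by
    conv_lhs => rw [← Nat.prod_primeFactors_of_squarefree hsq]
    push_cast; rfl
  rw [h1]
  apply Finset.prod_le_prod
  · intro p hp
    have hpp := Nat.prime_of_mem_primeFactors hp
    have h2 := (sq m s K N R M hM).nu_lt_one_of_prime p hpp
      ((Nat.dvd_of_mem_primeFactors hp).trans hd)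
    rw [inv_nonneg]; linarith
  · intro p hp
    have hpp := Nat.prime_of_mem_primeFactors hp
    have h3 := three_le_of_dvd hM hpp ((Nat.dvd_of_mem_primeFactors hp).trans hd)
    have h3' : (3 : ℝ) ≤ p := by exact_mod_cast h3
    show (1 - nuK K p)⁻¹ ≤ p
    have h5 : 1 - 2 / (p : ℝ) ≤ 1 - nuK K p := by
      have := nuK_prime_le (K := K) hpp
      linarith
    have h4 : 1 - 2 / (p : ℝ) = (p - 2) / p := by field_simp
    have h6 : 0 < 1 - 2 / (p : ℝ) := by
      rw [h4]; apply div_pos <;> linarith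
    calc (1 - nuK K p)⁻¹ ≤ (1 - 2 / (p : ℝ))⁻¹ := by
          apply inv_anti₀ h6 h5
      _ ≤ p := by
          rw [h4, inv_div, div_le_iff₀ (by linarith)]
          nlinarith

theorem U_mul (w X M : ℕ) :
    U w M * U X M ≤ 2 * ∑ l ∈ SF (w * X) M, ((Nat.divisors (Nat.gcd l (PR w M))).card : ℝ) / l := by
  classical
  have h0 : U w M * U X M = ∑ t ∈ (SF w M) ×ˢ (SF X M), (1 : ℝ) / t.1 * (1 / (t.2 : ℝ)) := by
    unfold U
    rw [Finset.sum_mul_sum, Finset.sum_product]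
  have h1 : ∑ t ∈ (SF w M) ×ˢ (SF X M), (1 : ℝ) / t.1 * (1 / (t.2 : ℝ)) ≤
      ∑ s ∈ (Icc 1 w) ×ˢ ((SF (w * X) M).sigma fun l => Nat.divisors (Nat.gcd l (PR w M))),
        (1 / (s.1 : ℝ) ^ 2) * (1 / (s.2.1 : ℝ)) := by
    apply sum_le_of_inj (fun t : ℕ × ℕ => (Nat.gcd t.1 t.2,
      (⟨(t.1 / Nat.gcd t.1 t.2) * (t.2 / Nat.gcd t.1 t.2),
        t.1 / Nat.gcd t.1 t.2⟩ : (_ : ℕ) × ℕ)))
    · rintro ⟨a, b⟩ hab
      simp only [mem_product, SF, mem_filter, mem_Icc] at hab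
      obtain ⟨⟨⟨ha1, ha2⟩, ha3, ha4⟩, ⟨hb1, hb2⟩, hb3, hb4⟩ := hab
      have hga : Nat.gcd a b ∣ a := Nat.gcd_dvd_left _ _
      have hgb : Nat.gcd a b ∣ b := Nat.gcd_dvd_right _ _
      have hg0 : 0 < Nat.gcd a b := Nat.gcd_pos_of_pos_left _ ha1
      have hda : 0 < a / Nat.gcd a b := Nat.div_pos (Nat.le_of_dvd ha1 hga) hg0
      have hdb : 0 < b / Nat.gcd a b := Nat.div_pos (Nat.le_of_dvd hb1 hgb) hg0
      have hcop : Nat.Coprime (a / Nat.gcd a b) (b / Nat.gcd a b) := Nat.coprime_div_gcd_div_gcd hg0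
      simp only [mem_product, mem_sigma, mem_Icc, SF, mem_filter, Nat.mem_divisors]
      refine ⟨⟨hg0, (Nat.le_of_dvd ha1 hga).trans ha2⟩, ⟨⟨Nat.mul_pos hda hdb, ?_⟩, ?_, ?_⟩, ?_, ?_⟩
      · exact Nat.mul_le_mul ((Nat.div_le_self _ _).trans ha2) ((Nat.div_le_self _ _).trans hb2)
      · rw [Nat.squarefree_mul_iff]
        exact ⟨hcop, ha3.squarefree_of_dvd (Nat.div_dvd_of_dvd hga),
          hb3.squarefree_of_dvd (Nat.div_dvd_of_dvd hgb)⟩
      · exact Nat.Coprime.mul_left (Nat.Coprime.coprime_dvd_left (Nat.div_dvd_of_dvd hga) ha4)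
          (Nat.Coprime.coprime_dvd_left (Nat.div_dvd_of_dvd hgb) hb4)
      · apply Nat.dvd_gcd (dvd_mul_right _ _)
        exact dvd_PR ((Nat.div_le_self _ _).trans ha2)
          (ha3.squarefree_of_dvd (Nat.div_dvd_of_dvd hga))
          (Nat.Coprime.coprime_dvd_left (Nat.div_dvd_of_dvd hga) ha4)
      · exact (Nat.gcd_pos_of_pos_left _ (Nat.mul_pos hda hdb)).ne'
    · rintro ⟨a, b⟩ hab ⟨c, d⟩ _ h
      simp only [Prod.mk.injEq, Sigma.mk.injEq, heq_eq_eq] at h
      obtain ⟨h1, h2, h3⟩ := h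
      simp only [coe_product, Set.mem_prod, SF, coe_filter, mem_Icc, Set.mem_ofPred_eq] at hab
      obtain ⟨⟨⟨ha1, ha2⟩, ha3, ha4⟩, ⟨hb1, hb2⟩, hb3, hb4⟩ := hab
      have hg0 : 0 < Nat.gcd a b := Nat.gcd_pos_of_pos_left _ ha1
      have hda : 0 < a / Nat.gcd a b :=
        Nat.div_pos (Nat.le_of_dvd ha1 (Nat.gcd_dvd_left _ _)) hg0
      have e1 := Nat.mul_div_cancel' (Nat.gcd_dvd_left a b)
      have e2 := Nat.mul_div_cancel' (Nat.gcd_dvd_right a b)
      have e3 := Nat.mul_div_cancel' (Nat.gcd_dvd_left c d)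
      have e4 := Nat.mul_div_cancel' (Nat.gcd_dvd_right c d)
      have h4 : b / Nat.gcd a b = d / Nat.gcd c d := by
        rw [← h3] at h2
        exact Nat.eq_of_mul_eq_mul_left hda h2
      rw [Prod.mk.injEq]
      constructor
      · rw [← e1, ← e3, h3, h1]
      · rw [← e2, ← e4, h4, h1]
    · rintro ⟨a, b⟩ _
      apply le_of_eq
      simp only
      have e1 : (a : ℝ) = (Nat.gcd a b : ℝ) * ((a / Nat.gcd a b : ℕ) : ℝ) := by
        exact_mod_cast (Nat.mul_div_cancel' (Nat.gcd_dvd_left a b)).symm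
      have e2 : (b : ℝ) = (Nat.gcd a b : ℝ) * ((b / Nat.gcd a b : ℕ) : ℝ) := by
        exact_mod_cast (Nat.mul_div_cancel' (Nat.gcd_dvd_right a b)).symm
      conv_lhs => rw [e1, e2]
      push_cast
      simp only [one_div, mul_inv]
      ring
    · intro s _
      positivity
  rw [h0]
  refine h1.trans ?_
  rw [Finset.sum_product]
  have h2 : ∀ c ∈ Icc 1 w, ∑ s ∈ (SF (w * X) M).sigma fun l => Nat.divisors (Nat.gcd l (PR w M)),
      (1 / (c : ℝ) ^ 2) * (1 / (s.1 : ℝ))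
      = (1 / (c : ℝ) ^ 2) *
        ∑ l ∈ SF (w * X) M, ((Nat.divisors (Nat.gcd l (PR w M))).card : ℝ) / l := by
    intro c _
    rw [← Finset.mul_sum, Finset.sum_sigma]
    congr 1
    apply Finset.sum_congr rfl
    intro l _
    simp only
    rw [Finset.sum_const, nsmul_eq_mul]
    ring
  rw [Finset.sum_congr rfl h2, ← Finset.sum_mul]
  have h3 := sum_inv_sq_le w
  have h4 : 0 ≤ ∑ l ∈ SF (w * X) M, ((Nat.divisors (Nat.gcd l (PR w M))).card : ℝ) / l :=
    Finset.sum_nonneg fun _ _ => by positivity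
  gcongr

theorem JJ_lower' {m : ℕ} {s : ℤ} {K N R M : ℕ} (hM : 2 ∣ M) :
    ∑ l ∈ SF R M, ((Nat.divisors (Nat.gcd l K)).card : ℝ) / l
      ≤ JJ (sq m s K N R M hM) R := by
  set t := sq m s K N R M hM with ht
  unfold JJ
  have hsub : SF R M ⊆ (Nat.divisors t.prodPrimes).filter (· ≤ R) := by
    intro l hl
    unfold SF at hl
    rw [mem_filter, mem_Icc] at hl
    rw [mem_filter, Nat.mem_divisors]
    exact ⟨⟨dvd_PR hl.1.2 hl.2.1 hl.2.2, P_ne t⟩, hl.1.2⟩
  calc ∑ l ∈ SF R M, ((Nat.divisors (Nat.gcd l K)).card : ℝ) / l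
      ≤ ∑ l ∈ SF R M, t.selbergTerms l := by
        apply Finset.sum_le_sum
        intro l hl
        have hl' := hsub hl
        rw [mem_filter] at hl'
        have hlP := Nat.dvd_of_mem_divisors hl'.1
        rw [selbergTerms_apply]
        show nuK K l ≤ nuK K l * _
        have hnu : 0 < nuK K l := nu_pos_of_dvd_prodPrimes (s := t) hlP
        have h1 : (1 : ℝ) ≤ ∏ p ∈ l.primeFactors, (1 - t.nu p)⁻¹ := by
          have h0 : (1 : ℝ) = ∏ _p ∈ l.primeFactors, (1 : ℝ) := by simp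
          refine h0.le.trans ?_
          apply Finset.prod_le_prod
          · intro p _; norm_num
          · intro p hp
            have hpp := Nat.prime_of_mem_primeFactors hp
            have hpP := (Nat.dvd_of_mem_primeFactors hp).trans hlP
            have h2 := t.nu_lt_one_of_prime p hpp hpP
            have h3 := t.nu_pos_of_prime p hpp hpP
            have h4 : 0 < 1 - t.nu p := by linarith
            exact (one_le_inv₀ h4).2 (by linarith)
        nlinarith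
    _ ≤ _ := by
        apply Finset.sum_le_sum_of_subset_of_nonneg hsub
        intro l hl _
        exact (g_pos (mem_filter.1 hl).1).le

theorem siftedSum_eq' {m : ℕ} {s : ℤ} {K N R M : ℕ} (hK : 0 < K) (hM : 2 ∣ M) :
    (sq m s K N R M hM).siftedSum
      = (((Icc 1 N).filter (fun q => Nat.Coprime (PR R M) (fq m s K q))).card : ℝ) := by
  unfold siftedSum
  show ∑ n ∈ (Icc 1 N).image (fq m s K), (if Nat.Coprime (PR R M) n then (1 : ℝ) else 0) = _
  rw [Finset.sum_image (fq_inj N hK), Finset.card_filter]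
  push_cast; rfl

open Classical in
theorem card_le_sifted' {m w : ℕ} {s : ℤ} {N R M : ℕ} (hM : 2 ∣ M) :
    (((Icc 1 N).filter (fun q : ℕ => q.Prime ∧
      ∀ p : ℕ, p.Prime → p ≤ w → ¬ ((p : ℤ) ∣ (m : ℤ) * (q : ℤ) + s))).card : ℝ)
      ≤ R + (sq m s (PR w M) N R M hM).siftedSum := by
  classical
  rw [siftedSum_eq' (PR_pos w M) hM]
  have h1 : (Icc 1 N).filter (fun q : ℕ => q.Prime ∧
      ∀ p : ℕ, p.Prime → p ≤ w → ¬ ((p : ℤ) ∣ (m : ℤ) * (q : ℤ) + s))
      ⊆ Icc 1 R ∪ (Icc 1 N).filter (fun q => Nat.Coprime (PR R M) (fq m s (PR w M) q)) := by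
    intro q hq
    rw [mem_filter, mem_Icc] at hq
    rw [mem_union, mem_Icc, mem_filter, mem_Icc]
    obtain ⟨⟨hq1, hq2⟩, hp1, hp2⟩ := hq
    by_cases hqR : q ≤ R
    · left; exact ⟨hq1, hqR⟩
    · right
      refine ⟨⟨hq1, hq2⟩, ?_⟩
      rw [Nat.coprime_iff_gcd_eq_one]
      by_contra h
      obtain ⟨p, hp, hpd⟩ := Nat.exists_prime_and_dvd h
      have h2 : p ∣ PR R M := hpd.trans (Nat.gcd_dvd_left _ _)
      have h3 : p ∣ fq m s (PR w M) q := hpd.trans (Nat.gcd_dvd_right _ _)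
      have hpR := (prime_dvd_PR hp).1 h2
      have hp2' : Nat.Coprime p 2 := by
        rw [Nat.coprime_primes hp Nat.prime_two]
        rintro rfl
        exact hpR.2 hM
      rw [dvd_fq_iff hp2'] at h3
      rcases (Nat.Prime.dvd_mul hp).1 h3 with h4 | h4
      · have h5 := (Nat.prime_dvd_prime_iff_eq hp hp1).1 h4
        omega
      · unfold gg at h4
        rw [Nat.dvd_gcd_iff, natAbs_dvd_iff, prime_dvd_PR hp] at h4
        exact hp2 p hp h4.1.1 h4.2
  have h2 := Finset.card_le_card h1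
  have h3 := h2.trans (Finset.card_union_le _ _)
  rw [Nat.card_Icc] at h3
  simp only [Nat.add_sub_cancel] at h3
  exact_mod_cast h3

end Pool.Agent.H378R2.QG.QP

namespace Pool.Agent.H378R2.QG

open Finset QP
open Pool.Agent.Helper112.E456.SieveAux

open Classical in
/-- QP: a mixed upper bound sieve -/
theorem sieve_mixed : ∃ C : ℝ, 0 < C ∧ ∀ (m N w : ℕ) (s : ℤ), (s = 1 ∨ s = -1) → 0 < m → 2 ≤ w →
    (w : ℝ) ≤ (N : ℝ) ^ (1 / 16 : ℝ) →
    (((Finset.Icc 1 N).filter (fun q : ℕ => q.Prime ∧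
      ∀ p : ℕ, p.Prime → p ≤ w → ¬ ((p : ℤ) ∣ (m : ℤ) * (q : ℤ) + s))).card : ℝ) ≤
      C * ((m : ℝ) / (Nat.totient m : ℝ)) ^ 2 * N / (Real.log N * Real.log w) := by
  refine ⟨640, by norm_num, ?_⟩
  intro m N w sg hsg hm hw hwN
  have hwr : (2 : ℝ) ≤ w := by exact_mod_cast hw
  have hN1 : 1 ≤ N := by
    rcases Nat.eq_zero_or_pos N with h | h
    · subst h
      rw [Nat.cast_zero, Real.zero_rpow (by norm_num)] at hwN
      linarith
    · exact h
  have hN0 : (0 : ℝ) < N := by exact_mod_cast hN1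
  have hNR : (2 : ℝ) ≤ N := by
    have h1 : (1 : ℝ) ≤ N := by exact_mod_cast hN1
    calc (2 : ℝ) ≤ (N : ℝ) ^ (1 / 16 : ℝ) := hwr.trans hwN
      _ ≤ (N : ℝ) ^ (1 : ℝ) := Real.rpow_le_rpow_of_exponent_le h1 (by norm_num)
      _ = N := Real.rpow_one _
  have hlog : 0 < Real.log N := Real.log_pos (by linarith)
  have hlogw : 0 < Real.log w := Real.log_pos (by linarith)
  set M := 2 * m with hM
  have hM2 : 2 ∣ M := dvd_mul_right _ _
  have hmM : m ∣ M := dvd_mul_left _ _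
  have hM0 : M ≠ 0 := by omega
  set X := ⌊(N : ℝ) ^ ((1 : ℝ) / 16)⌋₊ with hX
  have hX1 : 1 ≤ X := by
    rw [hX, Nat.one_le_floor_iff]
    exact Real.one_le_rpow (by linarith) (by norm_num)
  have hXle : (X : ℝ) ≤ (N : ℝ) ^ ((1 : ℝ) / 16) := Nat.floor_le (by positivity)
  have hXlt : (N : ℝ) ^ ((1 : ℝ) / 16) < X + 1 := Nat.lt_floor_add_one _
  have hlogX : Real.log N / 16 ≤ Real.log (X + 1) := by
    have h1 := Real.log_le_log (by positivity) hXlt.le
    rw [Real.log_rpow hN0] at h1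
    linarith
  have hwX : w ≤ X := by
    rw [hX]; exact Nat.le_floor hwN
  set R := w * X with hR
  have hR1 : 1 ≤ R := Nat.mul_pos (by omega) hX1
  set K := PR w M with hK
  have hK0 : 0 < K := PR_pos w M
  set t := QP.sq m sg K N R M hM2 with ht
  -- main Selberg bound
  have hsel := selberg_bound (s := t) R hR1 (A := R) (B := (R : ℝ) ^ 2) (by positivity) (by positivity)
    (by
      intro d hd hdR
      refine (g_div_nu_le' hM2 (Nat.dvd_of_mem_divisors hd)).trans ?_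
      exact_mod_cast hdR)
    (by
      intro d hd hdR
      refine (rem_le' hsg hK0 hM2 hmM (Nat.dvd_of_mem_divisors hd)).trans ?_
      exact_mod_cast hdR)
  have hcard := card_le_sifted' (m := m) (w := w) (s := sg) (N := N) (R := R) hM2
  -- lower bound for J
  have hJ1 := JJ_lower' (m := m) (s := sg) (K := K) (N := N) (R := R) hM2
  have hU := U_lower X M hM0
  have hUw := U_lower w M hM0
  have hUs := U_mul w X M
  have hJpos : 0 < JJ t R := JJ_pos R hR1
  have htot : (0 : ℝ) < Nat.totient m := by exact_mod_cast Nat.totient_pos.2 hm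
  have hmr : (0 : ℝ) < m := by exact_mod_cast hm
  set G := (m : ℝ) / (Nat.totient m : ℝ) with hG
  have hG1 : 1 ≤ G := by
    rw [hG, one_le_div htot]
    exact_mod_cast Nat.totient_le m
  have hMG : (M : ℝ) / (Nat.totient M : ℝ) ≤ 2 * G := by
    rw [hG, hM, ← mul_div_assoc]
    push_cast
    apply div_le_div_of_nonneg_left (by positivity) htot
    have : Nat.totient m ≤ Nat.totient (2 * m) :=
      Nat.le_of_dvd (Nat.totient_pos.2 (by omega)) (Nat.totient_dvd_of_dvd (dvd_mul_left _ _))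
    exact_mod_cast this
  have hU0 : 0 ≤ U X M := Finset.sum_nonneg fun _ _ => by positivity
  have hUw0 : 0 ≤ U w M := Finset.sum_nonneg fun _ _ => by positivity
  have hU2 : Real.log N ≤ 64 * G * U X M := by
    have h1 : Real.log (X + 1) ≤ 2 * (2 * G) * U X M := by
      refine hU.trans ?_
      gcongr
    linarith
  have hUw2 : Real.log w ≤ 4 * G * U w M := by
    have h1 : Real.log (w + 1) ≤ 2 * (2 * G) * U w M := by
      refine hUw.trans ?_
      gcongr
    have h2 : Real.log w ≤ Real.log (w + 1) := Real.log_le_log (by linarith) (by linarith)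
    linarith
  have hJ2 : Real.log N * Real.log w ≤ 512 * G ^ 2 * JJ t R := by
    calc Real.log N * Real.log w ≤ (64 * G * U X M) * (4 * G * U w M) := by gcongr
      _ = 256 * G ^ 2 * (U w M * U X M) := by ring
      _ ≤ 256 * G ^ 2 * (2 * JJ t R) := by
          have h5 : U w M * U X M ≤ 2 * JJ t R := hUs.trans (by linarith)
          exact mul_le_mul_of_nonneg_left h5 (by positivity)
      _ = _ := by ring
  have hmain : t.totalMass / JJ t R ≤ 512 * G ^ 2 * N / (Real.log N * Real.log w) := by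
    show (N : ℝ) / JJ t R ≤ _
    rw [div_le_div_iff₀ hJpos (by positivity)]
    calc (N : ℝ) * (Real.log N * Real.log w) ≤ N * (512 * G ^ 2 * JJ t R) := by gcongr
      _ = _ := by ring
  -- error terms
  have hwN' : (w : ℝ) ≤ N := by
    have h1 : (1 : ℝ) ≤ N := by linarith
    calc (w : ℝ) ≤ (N : ℝ) ^ (1 / 16 : ℝ) := hwN
      _ ≤ (N : ℝ) ^ (1 : ℝ) := Real.rpow_le_rpow_of_exponent_le h1 (by norm_num)
      _ = N := Real.rpow_one _
  have hlogwN : Real.log w ≤ Real.log N := Real.log_le_log (by linarith) hwN'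
  have hlog8 : Real.log N * Real.log w ≤ 64 * (N : ℝ) ^ ((1 : ℝ) / 4) := by
    have h1 : Real.log N ≤ (N : ℝ) ^ ((1 : ℝ) / 8) / (1 / 8) :=
      Real.log_le_rpow_div hN0.le (by norm_num)
    calc Real.log N * Real.log w ≤ Real.log N * Real.log N := by gcongr
      _ = (Real.log N) ^ 2 := by ring
      _ ≤ ((N : ℝ) ^ ((1 : ℝ) / 8) / (1 / 8)) ^ 2 := by gcongr
      _ = 64 * ((N : ℝ) ^ ((1 : ℝ) / 8)) ^ 2 := by ring
      _ = 64 * (N : ℝ) ^ ((1 : ℝ) / 4) := by
          rw [← Real.rpow_natCast, ← Real.rpow_mul hN0.le]; norm_num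
  have hX12 : (X : ℝ) ^ 12 ≤ (N : ℝ) ^ ((3 : ℝ) / 4) := by
    calc (X : ℝ) ^ 12 ≤ ((N : ℝ) ^ ((1 : ℝ) / 16)) ^ 12 := by gcongr
      _ = (N : ℝ) ^ ((3 : ℝ) / 4) := by
          rw [← Real.rpow_natCast, ← Real.rpow_mul hN0.le]; norm_num
  have hX1r : (1 : ℝ) ≤ X := by exact_mod_cast hX1
  have herr : (N : ℝ) ^ ((3 : ℝ) / 4) ≤ 64 * G ^ 2 * N / (Real.log N * Real.log w) := by
    rw [le_div_iff₀ (by positivity)]
    calc (N : ℝ) ^ ((3 : ℝ) / 4) * (Real.log N * Real.log w)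
        ≤ (N : ℝ) ^ ((3 : ℝ) / 4) * (64 * (N : ℝ) ^ ((1 : ℝ) / 4)) := by gcongr
      _ = 64 * ((N : ℝ) ^ ((3 : ℝ) / 4) * (N : ℝ) ^ ((1 : ℝ) / 4)) := by ring
      _ = 64 * N := by
          rw [← Real.rpow_add hN0]; norm_num
      _ ≤ 64 * G ^ 2 * N := by
          have : 1 ≤ G ^ 2 := one_le_pow₀ hG1
          nlinarith
  have hRr : (R : ℝ) ≤ (X : ℝ) ^ 2 := by
    rw [hR]; push_cast
    have : (w : ℝ) ≤ X := by exact_mod_cast hwX
    nlinarith
  have he1 : (R : ℝ) ≤ (N : ℝ) ^ ((3 : ℝ) / 4) := by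
    refine hRr.trans (le_trans ?_ hX12)
    exact pow_le_pow_right₀ hX1r (by norm_num)
  have hR0 : (0 : ℝ) ≤ R := Nat.cast_nonneg _
  have he2 : (R : ℝ) ^ 2 * ((R : ℝ) * R) ^ 2 ≤ (N : ℝ) ^ ((3 : ℝ) / 4) := by
    calc (R : ℝ) ^ 2 * ((R : ℝ) * R) ^ 2
        ≤ ((X : ℝ) ^ 2) ^ 2 * ((X : ℝ) ^ 2 * (X : ℝ) ^ 2) ^ 2 := by gcongr
      _ = (X : ℝ) ^ 12 := by ring
      _ ≤ _ := hX12
  calc _ ≤ (R : ℝ) + t.siftedSum := hcard
    _ ≤ (N : ℝ) ^ ((3 : ℝ) / 4) + (512 * G ^ 2 * N / (Real.log N * Real.log w)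
        + (N : ℝ) ^ ((3 : ℝ) / 4)) := by
        linarith
    _ ≤ 64 * G ^ 2 * N / (Real.log N * Real.log w) + (512 * G ^ 2 * N / (Real.log N * Real.log w)
        + 64 * G ^ 2 * N / (Real.log N * Real.log w)) := by linarith
    _ = 640 * G ^ 2 * N / (Real.log N * Real.log w) := by ring

end Pool.Agent.H378R2.QG
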